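import Pool.Agent.H30.AX.Targets
import Pool.Agent.H91.AW.BZ2

/-!
# MP_70ba79_ag: module BZ3 of the board `aw_modules`: the case of dimension zero
-/

set_option autoImplicit false

namespace Pool.Agent.H18.AX

open MvPolynomial SC Pool.Agent.H27.LV Pool.Agent.H30.AV Pool.Agent.H30.AW Pool.Agent.H30.AX

/-- module BZ3 -/
theorem pf_BZ3 (hLO3 : T_LO3) (hGPV : T_GPV) (hPFM : T_PFM) (hDFI : T_DFI) (hPFI : T_PFI)
    (hKER : T_KER) : T_BZ3 := by
  intro k _ _ _ m n r q Q hm hr hQ hq P hPp hPh hPt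
  obtain ⟨Δ, hΔ, hG⟩ := hGPV k n r q Q hQ
  refine ⟨Δ, r * m, hΔ, Nat.one_le_iff_ne_zero.2 (Nat.mul_ne_zero (by omega) (by omega)), ?_⟩
  intro a ha K _ _ _ htr S y D hD hQy hyc hO hP
  classical
  obtain ⟨j, hj⟩ := hyc
  have hs : D (y j) ≠ 0 := fun h => hj (hKER k K htr D hD _ h)
  have hl0 : lift2 y D (0, j.succ) = D (y j) := by
    simp [lift2, wed, xx]
  have hrel : ∀ p, ∃ c : k, lift2 y D p = algebraMap k K c * D (y j) := by
    intro p
    have h := Pool.Agent.H91.AW.bz_rel P hPh hPt (lift2 y D) hP p (0, j.succ) (by rw [hl0]; exact hs)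
    rwa [hl0] at h
  choose c hc using hrel
  have hell : ∀ i, ell (a i) (xx y) ≠ 0 := fun i => (hO i).1
  have hb : ∀ i, ∃ b : Fin (n + 1) → k, bil b c (a i) ≠ 0 := fun i =>
    Pool.Agent.H91.AW.bz_ne y D c j hs hc (a i) (hell i)
  choose b hb using hb
  have hbil : ∀ i, bil (evk K (b i)) (lift2 y D) (evk K (a i)) =
      algebraMap k K (bil (b i) c (a i)) * D (y j) := by
    intro i
    unfold bil evk
    rw [map_sum, Finset.sum_mul]
    refine Finset.sum_congr rfl fun s _ => ?_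
    rw [map_sum, Finset.sum_mul]
    refine Finset.sum_congr rfl fun t _ => ?_
    rw [hc, map_mul, map_mul]
    ring
  have hac : ∀ i, algebraMap k K (bil (b i) c (a i)) ≠ 0 := fun i h =>
    hb i ((map_eq_zero_iff _ (algebraMap k K).injective).1 h)
  have hL := fun (i : Fin q) (v : DV k K) => hLO3 k K htr n m (a i) (b i) S y D hD hm (hO i) v
  set E : DV k K → ℤ := fun v => (poleOrder v y : ℤ) with hE
  set kq : DV k K → ℤ := fun v => kp D S y v with hkq
  set ℓ : Fin q → K := fun i => ell (a i) (xx y) with hℓ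
  set lm : Fin q → DV k K → ℤ := fun i v => v.ord (ℓ i) + E v with hlm
  have hlm0 : ∀ i v, 0 ≤ lm i v := fun i v => (hL i v).1
  have hq0 : 0 < q := by
    rcases Nat.eq_zero_or_pos q with h | h
    · rw [h, mul_zero] at hq
      exact absurd hq (Nat.not_lt_zero _)
    · exact h
  have hkap : ∀ v : DV k K, kq v ≤ v.ord (D (y j)) := by
    intro v
    have h := (hL ⟨0, hq0⟩ v).2.1 (0, j.succ)
    rw [hl0] at h
    exact h.resolve_left hs
  have hone : ∀ i v, m * kq v + (m - 1) * lm i v ≤ m * v.ord (D (y j)) := by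
    intro i v
    rcases (hL i v).2.2 with h | h
    · rw [hbil] at h
      exact absurd h (mul_ne_zero (hac i) hs)
    · rw [hbil, v.ord_mul' (hac i) hs, v.ord_base, zero_add] at h
      exact h
  -- the local inequality
  have hloc : ∀ v : DV k K, r * m * kq v + (m - 1) * ∑ i, lm i v ≤
      r * m * v.ord (D (y j)) := by
    intro v
    let I : Finset (Fin q) := Finset.univ.filter fun i => 0 < lm i v
    have hIr : I.card ≤ r := hG a ha K htr y hQy hell v I fun i hi => (Finset.mem_filter.1 hi).2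
    have h1 : ∑ i, lm i v = ∑ i ∈ I, lm i v := by
      rw [Finset.sum_filter]
      refine Finset.sum_congr rfl fun i _ => ?_
      split_ifs with h2
      · rfl
      · exact le_antisymm (not_lt.1 h2) (hlm0 i v)
    have h3 : ∑ i ∈ I, ((m : ℤ) - 1) * lm i v ≤
        ∑ i ∈ I, ((m : ℤ) * v.ord (D (y j)) - m * kq v) :=
      Finset.sum_le_sum fun i _ => by
        have := hone i v
        linarith
    rw [Finset.sum_const, nsmul_eq_mul] at h3
    have hm0 : (0 : ℤ) ≤ m := Int.natCast_nonneg m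
    have h4 : (I.card : ℤ) * ((m : ℤ) * v.ord (D (y j)) - m * kq v) ≤
        r * ((m : ℤ) * v.ord (D (y j)) - m * kq v) := by
      apply mul_le_mul_of_nonneg_right
      · exact_mod_cast hIr
      · rw [← mul_sub]
        exact mul_nonneg hm0 (sub_nonneg.2 (hkap v))
    rw [h1, Finset.mul_sum]
    linarith
  -- summation
  have hf1 := (hPFM k K htr (D (y j))).1
  have hf2 := hDFI k K htr D hD
  have hf3 := hPFI k K htr (Fin n) y
  have hf4 : (⋃ i, {v : DV k K | v.ord (ℓ i) ≠ 0}).Finite :=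
    Set.finite_iUnion fun i => (hPFM k K htr (ℓ i)).1
  obtain ⟨T, hST, hT⟩ : ∃ T : Finset (DV k K), S ⊆ T ∧ ∀ v, v ∉ T → v.ord (D (y j)) = 0 ∧
      ordD v D = 0 ∧ poleOrder v y = 0 ∧ ∀ i, v.ord (ℓ i) = 0 := by
    refine ⟨S ∪ (hf1.toFinset ∪ hf2.toFinset ∪ hf3.toFinset ∪ hf4.toFinset),
      Finset.subset_union_left, fun v hv => ?_⟩
    simp only [Finset.mem_union, Set.Finite.mem_toFinset, Set.mem_ofPred_eq, not_or, not_not,
      Set.mem_iUnion, not_exists] at hv
    exact ⟨hv.2.1.1.1, hv.2.1.1.2, hv.2.1.2, hv.2.2⟩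
  have s1 : ∑ v ∈ T, v.ord (D (y j)) = 0 := by
    rw [← (hPFM k K htr (D (y j))).2, finsum_eq_sum_of_support_subset]
    intro v hv
    by_contra hcon
    exact hv (hT v hcon).1
  have s2 : ∑ v ∈ T, ordD v D = -canDeg D := by
    unfold canDeg
    rw [neg_neg, finsum_eq_sum_of_support_subset]
    intro v hv
    by_contra hcon
    exact hv (hT v hcon).2.1
  have s3 : ∑ v ∈ T, E v = deg k y := by
    rw [cast_deg htr, finsum_eq_sum_of_support_subset]
    intro v hv
    by_contra hcon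
    exact hv (by
      simp only
      exact_mod_cast (hT v hcon).2.2.1)
  have s4 : ∀ i, ∑ v ∈ T, v.ord (ℓ i) = 0 := by
    intro i
    rw [← (hPFM k K htr (ℓ i)).2, finsum_eq_sum_of_support_subset]
    intro v hv
    by_contra hcon
    exact hv ((hT v hcon).2.2.2 i)
  have s5 : ∑ v ∈ T, ∑ i, lm i v = q * deg k y := by
    rw [Finset.sum_comm]
    have : ∀ i, ∑ v ∈ T, lm i v = deg k y := fun i => by
      simp only [hlm]
      rw [Finset.sum_add_distrib, s4, s3, zero_add]
    rw [Finset.sum_congr rfl fun i _ => this i, Finset.sum_const, Finset.card_univ,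
      Fintype.card_fin, nsmul_eq_mul]
  have s6 : ∑ v ∈ T, kq v = -canDeg D - S.card - 2 * deg k y := by
    simp only [hkq, kp]
    have s3' : ∑ v ∈ T, (poleOrder v y : ℤ) = deg k y := s3
    rw [Finset.sum_sub_distrib, Finset.sum_sub_distrib, s2, ← Finset.mul_sum, s3',
      ← Finset.sum_filter]
    have h1 : T.filter (fun v => v ∈ S) = S := by
      ext v
      simp only [Finset.mem_filter]
      exact ⟨fun h => h.2, fun h => ⟨hST h, h⟩⟩
    rw [h1]
    simp
    ring
  have hfin := Finset.sum_le_sum fun (v : DV k K) (_ : v ∈ T) => hloc v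
  rw [Finset.sum_add_distrib, ← Finset.mul_sum, ← Finset.mul_sum, ← Finset.mul_sum, s1, s5, s6]
    at hfin
  have hq' : 2 * (r : ℤ) * m + 1 ≤ (m - 1) * q := by
    have h1 : 2 * r * m + 1 ≤ (m - 1) * q := hq
    have h2 : ((m - 1 : ℕ) : ℤ) = m - 1 := by
      push_cast [Nat.le_trans one_le_two hm]
      ring
    have h3 : ((2 * r * m + 1 : ℕ) : ℤ) ≤ ((m - 1 : ℕ) : ℤ) * q := by exact_mod_cast h1
    rw [h2] at h3
    push_cast at h3
    exact h3
  have hdeg : (0 : ℤ) ≤ deg k y := Int.natCast_nonneg _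
  have h7 := mul_le_mul_of_nonneg_right hq' hdeg
  push_cast
  linarith

end Pool.Agent.H18.AX
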