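import Pool.Agent.H30.AX.Targets

/-!
# MP_70ba79_ag, board `aw_modules`: CH3, change of the chart
-/

set_option autoImplicit false

namespace Pool.Agent.H18.AX

open MvPolynomial SC Pool.Agent.H27.LV Pool.Agent.H30.AV Pool.Agent.H30.AW Pool.Agent.H30.AX

private lemma chart_le {k K : Type} [Field k] [Field K] [Algebra k K] (v : DV k K) {σ : Type}
    [Fintype σ] (z : σ → K) (j : σ) (hj : z j ≠ 0) :
    (poleOrder v (fun i => z i / z j) : ℤ) ≤ poleOrder v z + v.ord (z j) := by
  have h0 := npole_le v z j
  have h1 : poleOrder v (fun i => z i / z j) ≤ ((poleOrder v z : ℤ) + v.ord (z j)).toNat := by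
    unfold poleOrder
    refine Finset.sup_le fun i _ => ?_
    apply Int.toNat_le_toNat
    show -v.ord (z i / z j) ≤ _
    by_cases hi : z i = 0
    · rw [hi, zero_div, v.ord_zero]
      simp only [neg_zero]
      unfold poleOrder at h0
      linarith
    · have h2 := npole_le v z i
      have h3 : v.ord (z i / z j) = v.ord (z i) - v.ord (z j) := v.ord_div hi hj
      unfold poleOrder at h2
      rw [h3]
      linarith
  have h2 : (0 : ℤ) ≤ (poleOrder v z : ℤ) + v.ord (z j) := by linarith
  calc (poleOrder v (fun i => z i / z j) : ℤ) ≤ (((poleOrder v z : ℤ) + v.ord (z j)).toNat : ℤ) := by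
        exact_mod_cast h1
    _ = _ := Int.toNat_of_nonneg h2

private lemma chart_eq {k K : Type} [Field k] [Field K] [Algebra k K] (v : DV k K) {σ : Type}
    [Fintype σ] (z : σ → K) (i j : σ) (hi : z i = 1) (hj : z j ≠ 0) :
    (poleOrder v (fun i => z i / z j) : ℤ) = poleOrder v z + v.ord (z j) := by
  refine le_antisymm (chart_le v z j hj) ?_
  have hne : z i / z j ≠ 0 := by
    rw [hi]
    exact one_div_ne_zero hj
  have h1 := chart_le v (fun l => z l / z j) i hne
  have h2 : (fun l => z l / z j / (z i / z j)) = z := by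
    funext l
    rw [hi]
    field_simp
  have h3 : v.ord (z i / z j) = - v.ord (z j) := by
    have h4 : v.ord (z i / z j) = v.ord (z i) - v.ord (z j) :=
      v.ord_div (by rw [hi]; exact one_ne_zero) hj
    rw [h4, hi]
    have h5 : v.ord (1 : K) = 0 := v.ord_one
    rw [h5, zero_sub]
  have h4 : (poleOrder v z : ℤ) ≤ poleOrder v (fun l => z l / z j) + v.ord (z i / z j) := by
    have h6 := h1
    rw [h2] at h6
    exact h6
  rw [h3] at h4
  linarith

theorem pf_CH3 (hPFM : T_PFM) (hPFI : T_PFI) : T_CH3 := by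
  intro k K _ _ _ _ _ _ htr σ _ z hz j₀ hj₀
  obtain ⟨i, hi⟩ := hz
  have h1 : (deg k (fun j => z j / z j₀) : ℤ) = deg k z := by
    rw [cast_deg htr, cast_deg htr]
    have h2 : (fun v : DV k K => (poleOrder v (fun j => z j / z j₀) : ℤ)) =
        fun v => (poleOrder v z : ℤ) + v.ord (z j₀) := by
      funext v
      exact chart_eq v z i j₀ hi hj₀
    have h3 : (Function.support fun v : DV k K => (poleOrder v z : ℤ)).Finite := by
      refine (hPFI k K htr σ z).subset fun v hv => ?_
      simpa using hv
    rw [h2, finsum_add_distrib h3 (hPFM k K htr (z j₀)).1, (hPFM k K htr (z j₀)).2, add_zero]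
  exact_mod_cast h1

end Pool.Agent.H18.AX
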