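import Pool.Agent.H30.AX.Targets
import Pool.Agent.H91.AW.BZ2

/-!
# MP_70ba79_ag: module CU3 of the board `aw_modules`: the inequality for one curve
-/

set_option autoImplicit false

namespace Pool.Agent.H18.AX

open MvPolynomial SC Pool.Agent.H27.LV Pool.Agent.H30.AV Pool.Agent.H30.AW Pool.Agent.H30.AX

section

variable {k K : Type} [Field k] [Field K] [Algebra k K] (v : DV k K) (m : ℕ)

/-- scaled order at least `t` -/
def Rm (t : ℤ) (x : K) : Prop := x = 0 ∨ t ≤ m * v.ord x

variable {v m}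

theorem Rm.mono {s t : ℤ} {x : K} (h : Rm v m s x) (hst : t ≤ s) : Rm v m t x :=
  h.imp id fun h => hst.trans h

theorem Rm.of_ge {t : ℤ} {x : K} (h : ge v t x) : Rm v m (m * t) x :=
  h.imp id fun h => mul_le_mul_of_nonneg_left h (Int.natCast_nonneg m)

theorem Rm.mul {s t : ℤ} {x y : K} (hx : Rm v m s x) (hy : Rm v m t y) :
    Rm v m (s + t) (x * y) := by
  by_cases hx0 : x = 0
  · left; rw [hx0, zero_mul]
  by_cases hy0 : y = 0
  · left; rw [hy0, mul_zero]
  right
  have h1 := hx.resolve_left hx0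
  have h2 := hy.resolve_left hy0
  rw [v.ord_mul' hx0 hy0]
  linarith

theorem Rm.add {t : ℤ} {x y : K} (hx : Rm v m t x) (hy : Rm v m t y) : Rm v m t (x + y) := by
  by_cases h : x + y = 0
  · exact Or.inl h
  right
  by_cases hx0 : x = 0
  · rw [hx0, zero_add] at h ⊢
    exact hy.resolve_left h
  by_cases hy0 : y = 0
  · rw [hy0, add_zero]
    exact hx.resolve_left hx0
  have h1 := hx.resolve_left hx0
  have h2 := hy.resolve_left hy0
  have h3 := v.ord_add x y hx0 hy0 h
  have hm : (0 : ℤ) ≤ m := Int.natCast_nonneg m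
  have h5 := mul_le_mul_of_nonneg_left h3 hm
  rcases min_choice (v.ord x) (v.ord y) with h4 | h4 <;> rw [h4] at h5 <;> linarith

theorem Rm.zero : Rm v m 0 (1 : K) := by
  right
  rw [v.ord_one, mul_zero]

theorem Rm.pow {t : ℤ} {x : K} (h : Rm v m t x) (n : ℕ) : Rm v m (n * t) (x ^ n) := by
  induction n with
  | zero =>
    rw [pow_zero]
    exact Rm.zero.mono (by simp)
  | succ n ih =>
    rw [pow_succ]
    refine (ih.mul h).mono ?_
    push_cast
    linarith

theorem Rm.prod {ι : Type} (s : Finset ι) (f : ι → K) (t : ι → ℤ)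
    (h : ∀ i ∈ s, Rm v m (t i) (f i)) : Rm v m (∑ i ∈ s, t i) (∏ i ∈ s, f i) := by
  classical
  induction s using Finset.induction_on with
  | empty =>
    rw [Finset.sum_empty, Finset.prod_empty]
    exact Rm.zero
  | insert a s ha ih =>
    rw [Finset.prod_insert ha, Finset.sum_insert ha]
    exact (h a (Finset.mem_insert_self _ _)).mul
      (ih fun i hi => h i (Finset.mem_insert_of_mem hi))

theorem Rm.sum {ι : Type} (s : Finset ι) (f : ι → K) (t : ℤ) (h : ∀ i ∈ s, Rm v m t (f i)) :
    Rm v m t (∑ i ∈ s, f i) := by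
  classical
  induction s using Finset.induction_on with
  | empty => exact Or.inl (by simp)
  | insert a s ha ih =>
    rw [Finset.sum_insert ha]
    exact (h a (Finset.mem_insert_self _ _)).add
      (ih fun i hi => h i (Finset.mem_insert_of_mem hi))

theorem Rm.const (c : k) : Rm v m 0 (algebraMap k K c) := by
  right
  rw [v.ord_base, mul_zero]

/-- values of forms -/
theorem Rm.form {τ : Type} {t : ℤ} (f : τ → K) (hf : ∀ s, Rm v m t (f s))
    (H : MvPolynomial τ k) {M : ℕ} (hH : H.IsHomogeneous M) : Rm v m (M * t) (aeval f H) := by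
  rw [← support_sum_monomial_coeff H, map_sum]
  apply Rm.sum
  intro e he
  rw [aeval_monomial]
  have h2 : Rm v m (M * t) (e.prod fun i n => f i ^ n) := by
    rw [hH.degree_eq_sum_deg_support he, Finsupp.prod]
    refine (Rm.prod e.support (fun i => f i ^ e i) (fun i => e i * t)
      fun i _ => (hf i).pow (e i)).mono ?_
    rw [← Finset.sum_mul]
    push_cast
    exact le_rfl
  exact ((Rm.const _).mul h2).mono (by linarith)

/-- values of the bilinear form -/
theorem Rm.bil {n : ℕ} {t : ℤ} (W : Zw n → K) (hW : ∀ p, Rm v m t (W p))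
    (b a : Fin (n + 1) → k) : Rm v m t (bil (evk K b) W (evk K a)) := by
  unfold Pool.Agent.H30.AW.bil evk
  refine Rm.sum _ _ _ fun i _ => Rm.sum _ _ _ fun j _ => ?_
  exact (((Rm.const (b i)).mul (hW (i, j))).mul (Rm.const (a j))).mono (by linarith)

end

/-- reduction of the bilinear form at a place -/
lemma bil_sub {k K : Type} [Field k] [Field K] [Algebra k K] {n : ℕ} (W : Zw n → K) (p₀ : Zw n)
    (h0 : W p₀ ≠ 0) (γ : Zw n → k) (b a : Fin (n + 1) → k) :
    bil (evk K b) W (evk K a) = W p₀ * (algebraMap k K (bil b γ a) +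
      bil (evk K b) (fun p => W p / W p₀ - algebraMap k K (γ p)) (evk K a)) := by
  unfold bil evk
  rw [map_sum, ← Finset.sum_add_distrib, Finset.mul_sum]
  refine Finset.sum_congr rfl fun s _ => ?_
  rw [map_sum, ← Finset.sum_add_distrib, Finset.mul_sum]
  refine Finset.sum_congr rfl fun t _ => ?_
  rw [map_mul, map_mul]
  field_simp
  ring

lemma lift_ge (hLO3 : T_LO3) (hPFM : T_PFM) (hPFI : T_PFI) {k K : Type} [Field k] [IsAlgClosed k]
    [CharZero k] [Field K] [Algebra k K] [Algebra.EssFiniteType k K] (htr : Algebra.trdeg k K = 1)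
    {n : ℕ} (S : Finset (DV k K)) (y : Fin n → K) (D : Derivation k K K) (hD : D ≠ 0)
    (v : DV k K) (p : Zw n) : ge v (kp D S y v) (lift2 y D p) := by
  classical
  obtain ⟨a, ha0, ha⟩ : ∃ a : Fin (n + 1) → k, ell a (xx y) ≠ 0 ∧ lam v y a = 0 := by
    have hell : ∀ j : Fin (n + 1), ell (Pi.single j (1 : k)) (xx y) = xx y j := by
      intro j
      unfold ell
      rw [Finset.sum_eq_single j]
      · rw [Pi.single_eq_same, map_one, one_mul]
      · intro i _ hi
        rw [Pi.single_eq_of_ne hi, map_zero, zero_mul]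
      · intro h
        exact absurd (Finset.mem_univ j) h
    rcases Nat.eq_zero_or_pos (poleOrder v y) with h0 | h0
    · refine ⟨Pi.single 0 1, ?_, ?_⟩
      · rw [hell]
        simp [xx]
      · unfold lam
        rw [hell, h0]
        simp [xx, v.ord_one]
    · have hn : (Finset.univ : Finset (Fin n)).Nonempty := by
        by_contra hcon
        rw [Finset.not_nonempty_iff_eq_empty] at hcon
        unfold poleOrder at h0
        rw [hcon, Finset.sup_empty] at h0
        exact absurd h0 (lt_irrefl _)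
      obtain ⟨j, _, hj⟩ := Finset.exists_mem_eq_sup _ hn fun i => (-(v.ord (y i))).toNat
      have hj' : poleOrder v y = (-(v.ord (y j))).toNat := hj
      have h1 : v.ord (y j) = -(poleOrder v y : ℤ) := by omega
      refine ⟨Pi.single j.succ 1, ?_, ?_⟩
      · rw [hell]
        simp only [xx, Fin.cons_succ]
        intro h2
        rw [h2, v.ord_zero] at h1
        omega
      · unfold lam
        rw [hell]
        simp only [xx, Fin.cons_succ]
        omega
  have hF : {u : DV k K | lam u y a ≠ 0}.Finite := by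
    refine ((hPFM k K htr (ell a (xx y))).1.union (hPFI k K htr (Fin n) y)).subset fun u hu => ?_
    simp only [Set.mem_ofPred_eq, Set.mem_union] at hu ⊢
    by_contra hcon
    push Not at hcon
    apply hu
    unfold lam
    rw [hcon.1, hcon.2]
    rfl
  have hO : Orb 2 (S ∪ hF.toFinset) y a := by
    refine ⟨ha0, fun u hu => Or.inl ?_⟩
    rw [Finset.mem_union, not_or, Set.Finite.mem_toFinset] at hu
    by_contra hcon
    exact hu.2 hcon
  have h1 := (hLO3 k K htr n 2 a 0 (S ∪ hF.toFinset) y D hD le_rfl hO v).2.1 p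
  have h2 : kp D (S ∪ hF.toFinset) y v = kp D S y v := by
    unfold kp
    congr 1
    have h3 : v ∉ hF.toFinset := by
      rw [Set.Finite.mem_toFinset]
      intro h
      exact h ha
    have h4 : v ∈ S ∪ hF.toFinset ↔ v ∈ S := by
      rw [Finset.mem_union]
      exact ⟨fun h => h.resolve_right h3, Or.inl⟩
    by_cases h5 : v ∈ S
    · rw [if_pos h5, if_pos (h4.2 h5)]
    · rw [if_neg h5, if_neg fun h => h5 (h4.1 h)]
  rwa [h2] at h1

theorem pf_CU3 (hLO3 : T_LO3) (hRAT : T_RAT) (hPFM : T_PFM) (hDFI : T_DFI) (hPFI : T_PFI)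
    (hKER : T_KER) : T_CU3 := by
  intro k K _ _ _ _ _ _ htr m n q r β N w c e a b S y D G g h hm hD hyc hO hI hbe hwr hG hg hh
    hrel hne
  classical
  obtain ⟨j₁, hj₁⟩ := hyc
  have hs : D (y j₁) ≠ 0 := fun h => hj₁ (hKER k K htr D hD _ h)
  have hl0 : lift2 y D (0, j₁.succ) = D (y j₁) := by
    simp [lift2, wed, xx]
  set W := lift2 y D with hW
  set Θ := aeval W (G * ∏ I, g I) with hΘ
  set ℓ : Fin q → K := fun i => ell (a i) (xx y) with hℓ
  set E : DV k K → ℤ := fun v => (poleOrder v y : ℤ) with hE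
  set kq : DV k K → ℤ := fun v => kp D S y v with hkq
  set lm : Fin q → DV k K → ℤ := fun i v => v.ord (ℓ i) + E v with hlm
  have hL := fun (i : Fin q) (b : Fin (n + 1) → k) (v : DV k K) =>
    hLO3 k K htr n m (a i) b S y D hD hm (hO i) v
  have hlm0 : ∀ i v, 0 ≤ lm i v := fun i v => (hL i 0 v).1
  have hm0 : (0 : ℤ) ≤ m := Int.natCast_nonneg m
  have hm1 : (0 : ℤ) ≤ (m : ℤ) - 1 := by
    have : (1 : ℤ) ≤ m := by exact_mod_cast (by omega : 1 ≤ m)
    linarith
  have hWge : ∀ (v : DV k K) p, ge v (kq v) (W p) := fun v p =>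
    lift_ge hLO3 hPFM hPFI htr S y D hD v p
  set M : ℤ := N + ∑ I, (c I : ℤ) with hM
  -- the local inequality
  have hloc : ∀ v : DV k K, m * M * kq v + w * (m - 1) * ∑ i, lm i v ≤ m * v.ord Θ := by
    intro v
    obtain ⟨p₀, hp₀, hmin⟩ : ∃ p₀, W p₀ ≠ 0 ∧ ∀ p, W p = 0 ∨ v.ord (W p₀) ≤ v.ord (W p) := by
      have hne' : (Finset.univ.filter fun p => W p ≠ 0).Nonempty :=
        ⟨(0, j₁.succ), Finset.mem_filter.2 ⟨Finset.mem_univ _, by rw [hl0]; exact hs⟩⟩
      obtain ⟨p₀, hp₀, h1⟩ := Finset.exists_min_image _ (fun p => v.ord (W p)) hne'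
      refine ⟨p₀, (Finset.mem_filter.1 hp₀).2, fun p => ?_⟩
      by_cases hp : W p = 0
      · exact Or.inl hp
      · exact Or.inr (h1 p (Finset.mem_filter.2 ⟨Finset.mem_univ _, hp⟩))
    obtain ⟨mv, hmv⟩ : ∃ mv, mv = v.ord (W p₀) := ⟨_, rfl⟩
    have hε : kq v ≤ mv := by
      rw [hmv]
      exact (hWge v p₀).resolve_left hp₀
    have hWm : ∀ p, Rm v m (m * mv) (W p) := by
      intro p
      refine Rm.of_ge ?_
      rw [hmv]
      exact hmin p
    have hγ : ∀ p, ∃ γ : k, ge v 1 (W p / W p₀ - algebraMap k K γ) := by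
      intro p
      refine (hRAT k K htr v).2 _ ?_
      rcases hmin p with h1 | h1
      · rw [h1, zero_div, v.ord_zero]
      · by_cases hp : W p = 0
        · rw [hp, zero_div, v.ord_zero]
        · rw [v.ord_div hp hp₀]
          linarith
    choose γ hγ using hγ
    obtain ⟨I', hI'⟩ : ∃ I' : Finset (Fin q), I' = Finset.univ.filter fun i =>
      ∀ c : Fin 2, bil (b i c) γ (a i) = 0 := ⟨_, rfl⟩
    have hI'c : 2 * I'.card ≤ β + 1 := by
      refine hbe v p₀ γ hp₀ hγ I' fun i hi => ?_
      rw [hI'] at hi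
      exact (Finset.mem_filter.1 hi).2
    -- the hyperplanes outside `I'`
    have hout : ∀ i, i ∉ I' → ((m : ℤ) - 1) * lm i v ≤ m * (mv - kq v) := by
      intro i hi
      rw [hI'] at hi
      simp only [Finset.mem_filter, Finset.mem_univ, true_and, not_forall] at hi
      obtain ⟨d, hd⟩ := hi
      obtain ⟨T, hT⟩ : ∃ T, T = bil (evk K (b i d)) W (evk K (a i)) := ⟨_, rfl⟩
      have h1 := bil_sub W p₀ hp₀ γ (b i d) (a i)
      have h2 : algebraMap k K (bil (b i d) γ (a i)) ≠ 0 := fun h =>
        hd ((map_eq_zero_iff _ (algebraMap k K).injective).1 h)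
      have h3 : ge v 1 (bil (evk K (b i d)) (fun p => W p / W p₀ - algebraMap k K (γ p))
          (evk K (a i))) := by
        have h4 : Rm v 1 1 (bil (evk K (b i d)) (fun p => W p / W p₀ - algebraMap k K (γ p))
          (evk K (a i))) := by
          refine Rm.bil _ (fun p => ?_) _ _
          have := Rm.of_ge (m := 1) (hγ p)
          simpa using this
        rcases h4 with h4 | h4
        · exact Or.inl h4
        · right
          simpa using h4
      obtain ⟨ρ, hρ⟩ : ∃ ρ, ρ = bil (evk K (b i d)) (fun p => W p / W p₀ - algebraMap k K (γ p))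
        (evk K (a i)) := ⟨_, rfl⟩
      rw [← hρ] at h1 h3
      have h5 : algebraMap k K (bil (b i d) γ (a i)) + ρ ≠ 0 ∧
          v.ord (algebraMap k K (bil (b i d) γ (a i)) + ρ) = 0 := by
        by_cases hρ0 : ρ = 0
        · rw [hρ0, add_zero]
          exact ⟨h2, v.ord_base _⟩
        · have h6 := h3.resolve_left hρ0
          have h7 : v.ord (algebraMap k K (bil (b i d) γ (a i))) = 0 := v.ord_base _
          have h8 : algebraMap k K (bil (b i d) γ (a i)) + ρ ≠ 0 := by
            intro h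
            have h9 : ρ = - algebraMap k K (bil (b i d) γ (a i)) := by
              rw [eq_neg_iff_add_eq_zero, add_comm]
              exact h
            rw [h9, ← map_neg, v.ord_base] at h6
            omega
          refine ⟨h8, ?_⟩
          rw [(v.ord_add_eq_left h2 (y := ρ) fun _ => by rw [h7]; linarith).2]
          exact h7
      have h6 : v.ord (bil (evk K (b i d)) W (evk K (a i))) = mv := by
        rw [h1, v.ord_mul' hp₀ h5.1, h5.2, add_zero, hmv]
      have h7 : bil (evk K (b i d)) W (evk K (a i)) ≠ 0 := by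
        rw [h1]
        exact mul_ne_zero hp₀ h5.1
      have h8 := (hL i (b i d) v).2.2.resolve_left h7
      rw [h6] at h8
      have h9 : (m : ℤ) * kq v + (m - 1) * lm i v ≤ m * mv := h8
      linarith
    -- the hyperplanes in `I'`
    obtain ⟨τ, hτ⟩ : ∃ τ : Fin q → ℤ, ∀ i, τ i = max ((m : ℤ) * kq v + (m - 1) * lm i v)
      (m * mv) := ⟨_, fun _ => rfl⟩
    have hin : ∀ i d, Rm v m (τ i) (bil (evk K (b i d)) W (evk K (a i))) := by
      intro i d
      rw [hτ]
      rcases (hL i (b i d) v).2.2 with h1 | h1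
      · exact Or.inl h1
      · rcases Rm.bil W hWm (b i d) (a i) with h2 | h2
        · exact Or.inl h2
        · right
          exact max_le h1 h2
    obtain ⟨hew, hrl⟩ := hrel I' hI'c
    have hgG : Rm v m (w * ∑ i ∈ I', τ i + e I' * (m * mv)) (aeval W (g I' * G)) := by
      rw [hrl]
      refine Rm.sum _ _ _ fun J _ => ?_
      refine (Rm.mul (Rm.prod I' _ (fun i => w * τ i) fun i _ => ?_)
        (Rm.form W hWm (h I' J) (hh I' J))).mono ?_
      · refine (((hin i 0).pow (J i)).mul ((hin i 1).pow (w - (J i : ℕ)))).mono ?_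
        have h1 : ((w - (J i : ℕ) : ℕ) : ℤ) = w - (J i : ℕ) := by
          have h2 : (J i : ℕ) ≤ w := Nat.lt_succ_iff.1 (J i).2
          push_cast [h2]
          ring
        rw [h1]
        apply le_of_eq
        ring
      · rw [Finset.mul_sum]
    have hrest : Rm v m (∑ I ∈ Finset.univ.erase I', c I * (m * mv))
        (∏ I ∈ Finset.univ.erase I', aeval W (g I)) :=
      Rm.prod _ _ _ fun I _ => Rm.form W hWm (g I) (hg I)
    have hΘ' : Θ = aeval W (g I' * G) * ∏ I ∈ Finset.univ.erase I', aeval W (g I) := by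
      rw [hΘ, map_mul, map_mul, map_prod, ← Finset.mul_prod_erase Finset.univ _
        (Finset.mem_univ I')]
      ring
    have h10 := (hgG.mul hrest).resolve_left (by rw [← hΘ']; exact hne)
    rw [← hΘ'] at h10
    have hcs : ∑ I, (c I : ℤ) = c I' + ∑ I ∈ Finset.univ.erase I', (c I : ℤ) :=
      (Finset.add_sum_erase Finset.univ _ (Finset.mem_univ I')).symm
    have hew' : (e I' : ℤ) + w * I'.card = N + c I' := by exact_mod_cast hew
    -- comparison
    obtain ⟨θ, hθ⟩ : ∃ θ : Fin q → ℤ, ∀ i, θ i = max 0 (((m : ℤ) - 1) * lm i v -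
      m * (mv - kq v)) := ⟨_, fun _ => rfl⟩
    have hτθ : ∀ i, τ i = m * mv + θ i := by
      intro i
      rw [hτ, hθ, ← max_add_add_left, add_zero, max_comm]
      congr 1
      ring
    have h11 : ∑ i ∈ I', τ i = I'.card * (m * mv) + ∑ i, θ i := by
      rw [Finset.sum_congr rfl fun i _ => hτθ i, Finset.sum_add_distrib, Finset.sum_const,
        nsmul_eq_mul]
      congr 1
      apply Finset.sum_subset (Finset.subset_univ _)
      intro i _ hi
      rw [hθ]
      have := hout i hi
      exact max_eq_left (by linarith)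
    have h12 : ((m : ℤ) - 1) * ∑ i, lm i v - r * (m * (mv - kq v)) ≤ ∑ i, θ i := by
      let I : Finset (Fin q) := Finset.univ.filter fun i => 0 < lm i v
      have hIr : I.card ≤ r := hI v I fun i hi => (Finset.mem_filter.1 hi).2
      have h1 : ∑ i, lm i v = ∑ i ∈ I, lm i v := by
        rw [Finset.sum_filter]
        refine Finset.sum_congr rfl fun i _ => ?_
        split_ifs with h2
        · rfl
        · exact le_antisymm (not_lt.1 h2) (hlm0 i v)
      have h2 : ∑ i ∈ I, θ i ≤ ∑ i, θ i :=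
        Finset.sum_le_sum_of_subset_of_nonneg (Finset.subset_univ _) fun i _ _ => by
          rw [hθ]
          exact le_max_left _ _
      have h3 : ∑ i ∈ I, (((m : ℤ) - 1) * lm i v - m * (mv - kq v)) ≤ ∑ i ∈ I, θ i :=
        Finset.sum_le_sum fun i _ => by
          rw [hθ]
          exact le_max_right _ _
      rw [Finset.sum_sub_distrib, ← Finset.mul_sum, Finset.sum_const, nsmul_eq_mul] at h3
      have h4 : (I.card : ℤ) * ((m : ℤ) * (mv - kq v)) ≤ r * ((m : ℤ) * (mv - kq v)) := by
        apply mul_le_mul_of_nonneg_right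
        · exact_mod_cast hIr
        · exact mul_nonneg hm0 (sub_nonneg.2 hε)
      rw [h1]
      linarith
    have hMwr : (w : ℤ) * r ≤ M := by
      have h1 : (w : ℤ) * r ≤ N := by exact_mod_cast hwr
      have h2 : (0 : ℤ) ≤ ∑ I, (c I : ℤ) := Finset.sum_nonneg fun I _ => Int.natCast_nonneg _
      rw [hM]
      linarith
    have h13 : (w : ℤ) * ((m - 1) * ∑ i, lm i v - r * (m * (mv - kq v))) ≤ w * ∑ i, θ i :=
      mul_le_mul_of_nonneg_left h12 (Int.natCast_nonneg w)
    have h14 : (w : ℤ) * r * (m * (mv - kq v)) ≤ M * (m * (mv - kq v)) :=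
      mul_le_mul_of_nonneg_right hMwr (mul_nonneg hm0 (sub_nonneg.2 hε))
    rw [h11, ← Finset.sum_mul] at h10
    have h15 : (e I' : ℤ) = N + c I' - w * I'.card := by linarith
    have h16 : (w : ℤ) * (I'.card * (m * mv) + ∑ i, θ i) + e I' * (m * mv) +
        (∑ I ∈ Finset.univ.erase I', (c I : ℤ)) * (m * mv) =
        w * ∑ i, θ i + M * (m * mv) := by
      rw [h15, hM, hcs]
      ring
    rw [h16] at h10
    have h17 : M * ((m : ℤ) * mv) = M * (m * (mv - kq v)) + m * M * kq v := by ring
    rw [h17] at h10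
    have h18 : (w : ℤ) * ((m - 1) * ∑ i, lm i v - r * (m * (mv - kq v))) =
        w * (m - 1) * ∑ i, lm i v - w * r * (m * (mv - kq v)) := by ring
    rw [h18] at h13
    linarith
  -- summation
  have hf1 := (hPFM k K htr Θ).1
  have hf2 := hDFI k K htr D hD
  have hf3 := hPFI k K htr (Fin n) y
  have hf4 : (⋃ i, {v : DV k K | v.ord (ℓ i) ≠ 0}).Finite :=
    Set.finite_iUnion fun i => (hPFM k K htr (ℓ i)).1
  obtain ⟨T, hST, hT⟩ : ∃ T : Finset (DV k K), S ⊆ T ∧ ∀ v, v ∉ T → v.ord Θ = 0 ∧
      ordD v D = 0 ∧ poleOrder v y = 0 ∧ ∀ i, v.ord (ℓ i) = 0 := by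
    refine ⟨S ∪ (hf1.toFinset ∪ hf2.toFinset ∪ hf3.toFinset ∪ hf4.toFinset),
      Finset.subset_union_left, fun v hv => ?_⟩
    simp only [Finset.mem_union, Set.Finite.mem_toFinset, Set.mem_ofPred_eq, not_or, not_not,
      Set.mem_iUnion, not_exists] at hv
    exact ⟨hv.2.1.1.1, hv.2.1.1.2, hv.2.1.2, hv.2.2⟩
  have s1 : ∑ v ∈ T, v.ord Θ = 0 := by
    rw [← (hPFM k K htr Θ).2, finsum_eq_sum_of_support_subset]
    intro v hv
    by_contra hcon
    exact hv (hT v hcon).1
  have s2 : ∑ v ∈ T, ordD v D = -canDeg D := by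
    unfold canDeg
    rw [neg_neg, finsum_eq_sum_of_support_subset]
    intro v hv
    by_contra hcon
    exact hv (hT v hcon).2.1
  have s3 : ∑ v ∈ T, E v = deg k y := by
    rw [cast_deg htr, finsum_eq_sum_of_support_subset]
    intro v hv
    by_contra hcon
    exact hv (by
      simp only
      exact_mod_cast (hT v hcon).2.2.1)
  have s4 : ∀ i, ∑ v ∈ T, v.ord (ℓ i) = 0 := by
    intro i
    rw [← (hPFM k K htr (ℓ i)).2, finsum_eq_sum_of_support_subset]
    intro v hv
    by_contra hcon
    exact hv ((hT v hcon).2.2.2 i)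
  have s5 : ∑ v ∈ T, ∑ i, lm i v = q * deg k y := by
    rw [Finset.sum_comm]
    have : ∀ i, ∑ v ∈ T, lm i v = deg k y := fun i => by
      simp only [hlm]
      rw [Finset.sum_add_distrib, s4, s3, zero_add]
    rw [Finset.sum_congr rfl fun i _ => this i, Finset.sum_const, Finset.card_univ,
      Fintype.card_fin, nsmul_eq_mul]
  have s6 : ∑ v ∈ T, kq v = -canDeg D - S.card - 2 * deg k y := by
    simp only [hkq, kp]
    have s3' : ∑ v ∈ T, (poleOrder v y : ℤ) = deg k y := s3
    rw [Finset.sum_sub_distrib, Finset.sum_sub_distrib, s2, ← Finset.mul_sum, s3',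
      ← Finset.sum_filter]
    have h1 : T.filter (fun v => v ∈ S) = S := by
      ext v
      simp only [Finset.mem_filter]
      exact ⟨fun h => h.2, fun h => ⟨hST h, h⟩⟩
    rw [h1]
    simp
    ring
  have hfin := Finset.sum_le_sum fun (v : DV k K) (_ : v ∈ T) => hloc v
  rw [Finset.sum_add_distrib, ← Finset.mul_sum, ← Finset.mul_sum, ← Finset.mul_sum, s1, s5, s6]
    at hfin
  linarith

end Pool.Agent.H18.AX
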