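import Pool.Agent.H87.AX.Targets4

/-! Board axs, row SCL (MP_2697e3_an): the smallest disc which carries all but a small part of the
energy. -/

namespace Pool.Agent.H18.AX

open MeasureTheory Metric Set Filter Topology Pool.Agent.H87.SN Pool.Agent.H87.SH Pool.Agent.H87.AX
open scoped ContDiff RealInnerProductSpace ENNReal

noncomputable section

/-- the admissible scales -/
def ScS (μ : Measure (E 2)) (Λ r₁ : ℝ) (x : E 2) : Set ℝ :=
  {r | 0 ≤ r ∧ r ≤ r₁ ∧ μ (ball x r) ≤ ENNReal.ofReal Λ}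

theorem pf_SCL : T_SCL := by
  intro f Λ ε r₁ hf hΛ hε hr₁ hr₁8 htot hB
  obtain ⟨B, hBt, hB⟩ := hB
  set μ : Measure (E 2) := volume.withDensity f with hμ
  have hμa : ∀ s : Set (E 2), MeasurableSet s → ∫⁻ y in s, f y = μ s := fun s hs =>
    (withDensity_apply f hs).symm
  have hb : ∀ x : E 2, ∀ r : ℝ, ∫⁻ y in ball x r, f y = μ (ball x r) := fun x r =>
    hμa _ measurableSet_ball
  have hbdd : ∀ x, BddAbove (ScS μ Λ r₁ x) := fun x => ⟨r₁, fun r hr => hr.2.1⟩
  have h0 : ∀ x, (0 : ℝ) ∈ ScS μ Λ r₁ x := by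
    intro x
    refine ⟨le_rfl, hr₁.le, ?_⟩
    simp
  have hdown : ∀ x r s, r ∈ ScS μ Λ r₁ x → 0 ≤ s → s ≤ r → s ∈ ScS μ Λ r₁ x := by
    intro x r s hr hs hsr
    exact ⟨hs, hsr.trans hr.2.1, (measure_mono (ball_subset_ball hsr)).trans hr.2.2⟩
  have hR0 : ∀ x, 0 ≤ sSup (ScS μ Λ r₁ x) := fun x => le_csSup (hbdd x) (h0 x)
  have hR1 : ∀ x, sSup (ScS μ Λ r₁ x) ≤ r₁ := fun x => csSup_le ⟨0, h0 x⟩ fun r hr => hr.2.1
  have hmem : ∀ x, sSup (ScS μ Λ r₁ x) ∈ ScS μ Λ r₁ x := by
    intro x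
    refine ⟨hR0 x, hR1 x, ?_⟩
    set R := sSup (ScS μ Λ r₁ x) with hR
    have hU : ball x R = ⋃ n : ℕ, ball x (R - 1 / ((n : ℝ) + 1)) := by
      ext y
      simp only [mem_ball, mem_iUnion]
      constructor
      · intro hy
        obtain ⟨n, hn⟩ := exists_nat_one_div_lt (sub_pos.2 hy)
        exact ⟨n, by linarith⟩
      · rintro ⟨n, hn⟩
        have : (0 : ℝ) < 1 / ((n : ℝ) + 1) := by positivity
        linarith
    have hmono : Monotone fun n : ℕ => ball x (R - 1 / ((n : ℝ) + 1)) := by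
      intro a b hab
      apply ball_subset_ball
      have : (1 : ℝ) / ((b : ℝ) + 1) ≤ 1 / ((a : ℝ) + 1) := by
        apply one_div_le_one_div_of_le (by positivity)
        have : (a : ℝ) ≤ b := by exact_mod_cast hab
        linarith
      linarith
    rw [hU, hmono.measure_iUnion]
    refine iSup_le fun n => ?_
    have hn : (0 : ℝ) < 1 / ((n : ℝ) + 1) := by positivity
    obtain ⟨r', hr', hlt⟩ := exists_lt_of_lt_csSup ⟨0, h0 x⟩
      (show R - 1 / ((n : ℝ) + 1) < sSup (ScS μ Λ r₁ x) by rw [← hR]; linarith)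
    exact (measure_mono (ball_subset_ball hlt.le)).trans hr'.2.2
  by_cases hfirst : ∀ x ∈ closedBall (0 : E 2) (5 / 8), ∫⁻ y in ball x r₁, f y ≤ ENNReal.ofReal Λ
  · exact Or.inl hfirst
  right
  push Not at hfirst
  obtain ⟨x₁, hx₁, hx₁'⟩ := hfirst
  have hlip : LipschitzWith 1 (fun x => sSup (ScS μ Λ r₁ x)) := by
    refine LipschitzWith.of_le_add fun x x' => ?_
    rcases le_total (sSup (ScS μ Λ r₁ x)) (dist x x') with h | h
    · linarith [hR0 x']
    · have h1 : sSup (ScS μ Λ r₁ x) - dist x x' ∈ ScS μ Λ r₁ x' := by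
        refine ⟨by linarith, by linarith [hR1 x, dist_nonneg (x := x) (y := x')], ?_⟩
        refine (measure_mono fun y hy => ?_).trans (hmem x).2.2
        rw [mem_ball] at hy ⊢
        have := dist_triangle y x' x
        rw [dist_comm x' x] at this
        linarith
      have h2 := le_csSup (hbdd x') h1
      linarith
  obtain ⟨x₀, hx₀, hmin⟩ := (isCompact_closedBall (0 : E 2) (5 / 8)).exists_isMinOn
    ⟨0, mem_closedBall_self (by norm_num)⟩ hlip.continuous.continuousOn
  have hmin' : ∀ x ∈ closedBall (0 : E 2) (5 / 8),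
      sSup (ScS μ Λ r₁ x₀) ≤ sSup (ScS μ Λ r₁ x) := fun x hx => hmin hx
  have hsub : ∀ x ∈ closedBall (0 : E 2) (5 / 8), ∀ r ≤ r₁, ball x r ⊆ ball (0 : E 2) (7 / 8) := by
    intro x hx r hr
    apply ball_subset_ball'
    rw [mem_closedBall] at hx
    linarith
  -- small radii
  have hpos : 0 < sSup (ScS μ Λ r₁ x₀) := by
    set V : ℝ := (volume (ball (0 : E 2) 1)).toReal with hV
    have hV0 : 0 ≤ V := ENNReal.toReal_nonneg
    have hVe : volume (ball (0 : E 2) 1) = ENNReal.ofReal V :=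
      (ENNReal.ofReal_toReal measure_ball_lt_top.ne).symm
    have hBe : B = ENNReal.ofReal B.toReal := (ENNReal.ofReal_toReal hBt).symm
    have hB0 : 0 ≤ B.toReal := ENNReal.toReal_nonneg
    set r := min r₁ (Λ / (B.toReal * V + 1)) with hr
    have hden : 0 < B.toReal * V + 1 := by positivity
    have hrpos : 0 < r := lt_min hr₁ (by positivity)
    have hrr : r ≤ r₁ := min_le_left _ _
    have hr2 : r * (B.toReal * V + 1) ≤ Λ := by
      have : r ≤ Λ / (B.toReal * V + 1) := min_le_right _ _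
      rwa [le_div_iff₀ hden] at this
    have hrS : r ∈ ScS μ Λ r₁ x₀ := by
      refine ⟨hrpos.le, hrr, ?_⟩
      rw [← hb]
      have h1 : ∫⁻ y in ball x₀ r, f y ≤ ∫⁻ y in ball x₀ r, B := by
        apply setLIntegral_mono measurable_const
        intro y hy
        exact hB y (hsub x₀ hx₀ r hrr hy)
      refine h1.trans ?_
      rw [setLIntegral_const, Measure.addHaar_ball _ _ hrpos.le, hVe]
      have hfr : Module.finrank ℝ (E 2) = 2 := by
        change Module.finrank ℝ (EuclideanSpace ℝ (Fin 2)) = 2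
        simp
      rw [hfr, ← ENNReal.ofReal_mul (by positivity)]
      have hBB : B * ENNReal.ofReal (r ^ 2 * V) = ENNReal.ofReal (B.toReal * (r ^ 2 * V)) := by
        rw [ENNReal.ofReal_mul hB0, ENNReal.ofReal_toReal hBt]
      rw [hBB]
      apply ENNReal.ofReal_le_ofReal
      have h3 : r ^ 2 ≤ r := by nlinarith
      have h4 : B.toReal * (r ^ 2 * V) ≤ B.toReal * (r * V) := by
        apply mul_le_mul_of_nonneg_left _ hB0
        exact mul_le_mul_of_nonneg_right h3 hV0
      nlinarith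
    exact lt_of_lt_of_le hrpos (le_csSup (hbdd x₀) hrS)
  have hlt : sSup (ScS μ Λ r₁ x₀) < r₁ := by
    refine lt_of_le_of_lt (hmin' x₁ hx₁) (lt_of_le_of_ne (hR1 x₁) ?_)
    intro heq
    have := (hmem x₁).2.2
    rw [heq, ← hb] at this
    exact absurd this (not_le.2 hx₁')
  refine ⟨x₀, hx₀, sSup (ScS μ Λ r₁ x₀), hpos, hlt, ?_, ?_⟩
  · intro x hx
    rw [hb]
    exact (measure_mono (ball_subset_ball (hmin' x hx))).trans (hmem x).2.2
  · have hkey : ∀ r : ℝ, sSup (ScS μ Λ r₁ x₀) < r → r ≤ r₁ →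
        ∫⁻ y in ball (0 : E 2) 1 \ ball x₀ r, f y ≤ ENNReal.ofReal ε := by
      intro r hr hr'
      have hbig : ENNReal.ofReal Λ < μ (ball x₀ r) := by
        by_contra hcon
        push Not at hcon
        have h1 : r ∈ ScS μ Λ r₁ x₀ := ⟨(hR0 x₀).trans hr.le, hr', hcon⟩
        exact absurd (le_csSup (hbdd x₀) h1) (not_le.2 hr)
      have hsub1 : ball x₀ r ⊆ ball (0 : E 2) 1 :=
        (hsub x₀ hx₀ r hr').trans (ball_subset_ball (by norm_num))
      rw [hμa _ (measurableSet_ball.diff measurableSet_ball)]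
      have hsum : μ (ball x₀ r) + μ (ball (0 : E 2) 1 \ ball x₀ r) = μ (ball (0 : E 2) 1) := by
        rw [← measure_union disjoint_sdiff_right (measurableSet_ball.diff measurableSet_ball),
          union_sdiff_cancel hsub1]
      rw [hb] at htot
      have h5 : ENNReal.ofReal Λ + μ (ball (0 : E 2) 1 \ ball x₀ r) ≤
          ENNReal.ofReal Λ + ENNReal.ofReal ε := by
        rw [← ENNReal.ofReal_add hΛ.le hε.le]
        refine le_trans ?_ htot
        rw [← hsum]
        exact add_le_add_left hbig.le _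
      exact (ENNReal.add_le_add_iff_left ENNReal.ofReal_ne_top).1 h5
    intro r hr
    rcases le_total r r₁ with h | h
    · exact hkey r hr h
    · refine le_trans ?_ (hkey r₁ hlt le_rfl)
      exact lintegral_mono_set (sdiff_subset_sdiff_right (ball_subset_ball h))

end

end Pool.Agent.H18.AX
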