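import Pool.Agent.H87.AX.Targets4

/-! Board axs, row WKH (MP_2697e3_an): the classical Hessian off the axis, if integrable, is the
distributional Hessian. -/

namespace Pool.Agent.H18.AX

open MeasureTheory Metric Set Filter Topology Pool.Agent.H87.SN Pool.Agent.H87.SH Pool.Agent.H87.AX
open scoped ContDiff RealInnerProductSpace ENNReal

noncomputable section

/-- the squared distance to the axis -/
def q2 (x : E (1 + 2)) : ℝ := x 0 ^ 2 + x 1 ^ 2

/-- the cutoff near the axis -/
def ct (e : ℝ) (x : E (1 + 2)) : ℝ := Real.smoothTransition ((q2 x / e ^ 2 - 1) / 3)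

theorem rho_pos_iff (x : E (1 + 2)) : 0 < rho x ↔ 0 < q2 x := Real.sqrt_pos

theorem q2_nonneg (x : E (1 + 2)) : 0 ≤ q2 x := by unfold q2; positivity

theorem q2_contDiff : ContDiff ℝ ∞ q2 := by
  unfold q2
  fun_prop

theorem ct_contDiff (e : ℝ) : ContDiff ℝ ∞ (ct e) := by
  unfold ct
  exact Real.smoothTransition.contDiff.comp (((q2_contDiff.div_const _).sub contDiff_const).div_const _)

theorem ct_nonneg (e : ℝ) (x : E (1 + 2)) : 0 ≤ ct e x := Real.smoothTransition.nonneg _

theorem ct_le_one (e : ℝ) (x : E (1 + 2)) : ct e x ≤ 1 := Real.smoothTransition.le_one _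

theorem ct_zero {e : ℝ} (he : 0 < e) {x : E (1 + 2)} (hx : q2 x ≤ e ^ 2) : ct e x = 0 := by
  apply Real.smoothTransition.zero_of_nonpos
  have : q2 x / e ^ 2 ≤ 1 := by rw [div_le_one (by positivity)]; exact hx
  linarith

theorem ct_one {e : ℝ} (he : 0 < e) {x : E (1 + 2)} (hx : 4 * e ^ 2 ≤ q2 x) : ct e x = 1 := by
  apply Real.smoothTransition.one_of_one_le
  have : 4 ≤ q2 x / e ^ 2 := by rw [le_div_iff₀ (by positivity)]; exact hx
  linarith

theorem st_bound : ∃ M : ℝ, 0 ≤ M ∧ ∀ t, |deriv Real.smoothTransition t| ≤ M := by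
  have hc : Continuous (deriv Real.smoothTransition) :=
    (Real.smoothTransition.contDiff (n := 1)).continuous_deriv le_rfl
  obtain ⟨M, hM⟩ := (isCompact_Icc (a := (0 : ℝ)) (b := 1)).exists_bound_of_continuousOn
    hc.continuousOn
  refine ⟨max M 0, le_max_right _ _, fun t => ?_⟩
  rcases lt_or_ge t 0 with h | h
  · have : Real.smoothTransition =ᶠ[𝓝 t] fun _ => (0 : ℝ) := by
      filter_upwards [Iio_mem_nhds h] with s hs
      exact Real.smoothTransition.zero_of_nonpos hs.le
    rw [this.deriv_eq]; simp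
  rcases lt_or_ge 1 t with h' | h'
  · have : Real.smoothTransition =ᶠ[𝓝 t] fun _ => (1 : ℝ) := by
      filter_upwards [Ioi_mem_nhds h'] with s hs
      exact Real.smoothTransition.one_of_one_le hs.le
    rw [this.deriv_eq]; simp
  · exact (hM t ⟨h, h'⟩).trans (le_max_left _ _)

theorem ct_fderiv_eq (e : ℝ) (x v : E (1 + 2)) : fderiv ℝ (ct e) x v =
    deriv Real.smoothTransition ((q2 x / e ^ 2 - 1) / 3) *
      ((2 * x 0 * v 0 + 2 * x 1 * v 1) / e ^ 2 / 3) := by
  have hd : DifferentiableAt ℝ (ct e) x :=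
    ((ct_contDiff e).differentiable (by simp)).differentiableAt
  rw [← hd.lineDeriv_eq_fderiv]
  apply HasDerivAt.deriv
  have h1 : HasDerivAt (fun t : ℝ => (q2 (x + t • v) / e ^ 2 - 1) / 3)
      ((2 * x 0 * v 0 + 2 * x 1 * v 1) / e ^ 2 / 3) 0 := by
    have ha := (((hasDerivAt_id (0 : ℝ)).mul_const (v 0)).const_add (x 0)).pow 2
    have hb := (((hasDerivAt_id (0 : ℝ)).mul_const (v 1)).const_add (x 1)).pow 2
    have h2 := (((ha.add hb).div_const (e ^ 2)).sub_const 1).div_const 3
    refine (h2.congr_deriv ?_).congr_of_eventuallyEq ?_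
    · simp
    · refine Eventually.of_forall fun t => ?_
      simp [q2]
  have h3 : HasDerivAt Real.smoothTransition
      (deriv Real.smoothTransition ((q2 x / e ^ 2 - 1) / 3))
      ((q2 (x + (0 : ℝ) • v) / e ^ 2 - 1) / 3) := by
    rw [zero_smul, add_zero]
    exact ((Real.smoothTransition.contDiff (n := 1)).differentiable (by simp)).differentiableAt.hasDerivAt
  exact h3.comp (0 : ℝ) h1

theorem ct_fderiv_far {e : ℝ} (he : 0 < e) {x : E (1 + 2)} (hx : 4 * e ^ 2 < q2 x) :
    fderiv ℝ (ct e) x = 0 := by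
  have : ct e =ᶠ[𝓝 x] fun _ => (1 : ℝ) := by
    filter_upwards [(isOpen_lt continuous_const q2_contDiff.continuous).mem_nhds hx] with y hy
    exact ct_one he (le_of_lt hy)
  rw [this.fderiv_eq]; simp

theorem ct_fderiv_near {e : ℝ} (he : 0 < e) {x : E (1 + 2)} (hx : q2 x < e ^ 2) :
    fderiv ℝ (ct e) x = 0 := by
  have : ct e =ᶠ[𝓝 x] fun _ => (0 : ℝ) := by
    filter_upwards [(isOpen_lt q2_contDiff.continuous continuous_const).mem_nhds hx] with y hy
    exact ct_zero he (le_of_lt hy)
  rw [this.fderiv_eq]; simp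

theorem ct_fderiv_le : ∃ M : ℝ, 0 ≤ M ∧ ∀ e : ℝ, 0 < e → ∀ x v : E (1 + 2),
    |fderiv ℝ (ct e) x v| ≤ M * ‖v‖ * (1 / e) := by
  obtain ⟨M, hM0, hM⟩ := st_bound
  refine ⟨M * 4, by positivity, fun e he x v => ?_⟩
  rcases lt_or_ge (4 * e ^ 2) (q2 x) with h | h
  · rw [ct_fderiv_far he h]; simp; positivity
  rw [ct_fderiv_eq, abs_mul]
  have hx0 : |x 0| ≤ 2 * e := by
    refine abs_le_of_sq_le_sq ?_ (by positivity)
    unfold q2 at h; nlinarith [sq_nonneg (x 1)]
  have hx1 : |x 1| ≤ 2 * e := by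
    refine abs_le_of_sq_le_sq ?_ (by positivity)
    unfold q2 at h; nlinarith [sq_nonneg (x 0)]
  have hv0 : |v 0| ≤ ‖v‖ := PiLp.norm_apply_le v 0
  have hv1 : |v 1| ≤ ‖v‖ := PiLp.norm_apply_le v 1
  have h2 : |2 * x 0 * v 0 + 2 * x 1 * v 1| ≤ 8 * e * ‖v‖ := by
    refine (abs_add_le _ _).trans ?_
    rw [abs_mul, abs_mul, abs_mul, abs_mul, abs_two]
    have h3 : |x 0| * |v 0| ≤ 2 * e * ‖v‖ := mul_le_mul hx0 hv0 (abs_nonneg _) (by positivity)
    have h4 : |x 1| * |v 1| ≤ 2 * e * ‖v‖ := mul_le_mul hx1 hv1 (abs_nonneg _) (by positivity)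
    nlinarith
  have h5 : |(2 * x 0 * v 0 + 2 * x 1 * v 1) / e ^ 2 / 3| ≤ 4 * ‖v‖ * (1 / e) := by
    rw [abs_div, abs_div, abs_of_pos (show (0 : ℝ) < e ^ 2 by positivity),
      abs_of_pos (show (0 : ℝ) < 3 by norm_num), div_le_iff₀ (by norm_num),
      div_le_iff₀ (by positivity)]
    refine h2.trans ?_
    have : 4 * ‖v‖ * (1 / e) * 3 * e ^ 2 = 12 * ‖v‖ * e := by field_simp; ring
    rw [this]
    nlinarith [norm_nonneg v, mul_nonneg (norm_nonneg v) he.le]
  calc _ ≤ M * (4 * ‖v‖ * (1 / e)) := mul_le_mul (hM _) h5 (abs_nonneg _) hM0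
    _ = _ := by ring

theorem vsum {n : ℕ} (v : E n) : v = ∑ i, v i • bv i := by
  ext j
  simp [bv, Finset.sum_apply, Pi.single_apply]

theorem hess_le {n : ℕ} {F : Type*} [NormedAddCommGroup F] [NormedSpace ℝ F]
    (B : E n →L[ℝ] E n →L[ℝ] F) (v w : E n) :
    ‖B v w‖ ≤ (n * n * (‖v‖ * ‖w‖)) * Real.sqrt (∑ i : Fin n, ∑ j : Fin n, ‖B (bv i) (bv j)‖ ^ 2) := by
  have h1 : B v w = ∑ i, ∑ j, (v i * w j) • B (bv i) (bv j) := by
    conv_lhs => rw [vsum v, vsum w]
    simp only [map_sum, map_smul, FunLike.coe_sum, FunLike.coe_smul, Finset.sum_apply,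
      Pi.smul_apply, Finset.smul_sum, smul_smul]
    rw [Finset.sum_comm]
    refine Finset.sum_congr rfl fun i _ => Finset.sum_congr rfl fun j _ => ?_
    rw [mul_comm]
  rw [h1]
  have h2 : ∀ i j, ‖B (bv i) (bv j)‖ ≤
      Real.sqrt (∑ i : Fin n, ∑ j : Fin n, ‖B (bv i) (bv j)‖ ^ 2) := by
    intro i j
    apply Real.le_sqrt_of_sq_le
    calc ‖B (bv i) (bv j)‖ ^ 2 ≤ ∑ j : Fin n, ‖B (bv i) (bv j)‖ ^ 2 :=
          Finset.single_le_sum (f := fun j => ‖B (bv i) (bv j)‖ ^ 2)
            (fun _ _ => by positivity) (Finset.mem_univ j)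
      _ ≤ _ := Finset.single_le_sum (f := fun i => ∑ j : Fin n, ‖B (bv i) (bv j)‖ ^ 2)
            (fun _ _ => by positivity) (Finset.mem_univ i)
  have h3 : ∀ i j, ‖(v i * w j) • B (bv i) (bv j)‖ ≤ ‖v‖ * ‖w‖ *
      Real.sqrt (∑ i : Fin n, ∑ j : Fin n, ‖B (bv i) (bv j)‖ ^ 2) := by
    intro i j
    rw [norm_smul, norm_mul]
    exact mul_le_mul (mul_le_mul (PiLp.norm_apply_le v i) (PiLp.norm_apply_le w j)
      (norm_nonneg _) (norm_nonneg _)) (h2 i j) (norm_nonneg _) (by positivity)
  refine (norm_sum_le _ _).trans ((Finset.sum_le_sum fun i _ => (norm_sum_le _ _).trans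
    (Finset.sum_le_sum fun j _ => h3 i j)).trans ?_)
  simp only [Finset.sum_const, Finset.card_univ, Fintype.card_fin, nsmul_eq_mul]
  apply le_of_eq; ring

/-- the tube around the axis -/
def tube (e : ℝ) : Set (E (1 + 2)) := {x | x ∈ ball 0 1 ∧ q2 x ≤ 4 * e ^ 2}

theorem tube_meas (e : ℝ) : MeasurableSet (tube e) :=
  measurableSet_ball.inter (isClosed_le q2_contDiff.continuous continuous_const).measurableSet

theorem tube_vol {e : ℝ} (he : 0 < e) : volume (tube e) ≤ ENNReal.ofReal (32 * e ^ 2) := by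
  set c : Fin (1 + 2) → ℝ := ![2 * e, 2 * e, 1] with hc
  have hsub : tube e ⊆ (@WithLp.ofLp 2 (Fin (1 + 2) → ℝ)) ⁻¹'
      (Set.pi univ fun i => Icc (- c i) (c i)) := by
    intro x hx
    rw [mem_preimage, mem_univ_pi]
    have hx1 : ‖x‖ < 1 := by simpa using hx.1
    have hx2 := hx.2
    unfold q2 at hx2
    have h0 : |x 0| ≤ 2 * e := by
      refine abs_le_of_sq_le_sq ?_ (by positivity)
      nlinarith [sq_nonneg (x 1)]
    have h1 : |x 1| ≤ 2 * e := by
      refine abs_le_of_sq_le_sq ?_ (by positivity)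
      nlinarith [sq_nonneg (x 0)]
    have h2 : |x 2| ≤ 1 := (PiLp.norm_apply_le x 2).trans hx1.le
    intro i
    rw [mem_Icc, ← abs_le]
    fin_cases i
    · exact h0
    · exact h1
    · exact h2
  refine (measure_mono hsub).trans ?_
  rw [(PiLp.volume_preserving_ofLp (Fin (1 + 2))).measure_preimage
    (MeasurableSet.univ_pi fun i => measurableSet_Icc).nullMeasurableSet, volume_pi_pi]
  simp only [Real.volume_Icc]
  rw [show (∏ i : Fin (1 + 2), ENNReal.ofReal (c i - -c i)) =
    ∏ i : Fin 3, ENNReal.ofReal (c i - -c i) from rfl, Fin.prod_univ_three]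
  rw [← ENNReal.ofReal_mul (by simp [hc]; positivity), ← ENNReal.ofReal_mul (by
    simp [hc]; positivity)]
  apply ENNReal.ofReal_le_ofReal
  apply le_of_eq
  simp [hc]
  ring

theorem axis_null : volume {x : E (1 + 2) | q2 x = 0} = 0 := by
  have h1 : {x : E (1 + 2) | q2 x = 0} ⊆
      ((LinearMap.ker ((EuclideanSpace.proj (0 : Fin (1 + 2)) : E (1 + 2) →L[ℝ] ℝ) :
        E (1 + 2) →ₗ[ℝ] ℝ) : Submodule ℝ (E (1 + 2))) : Set (E (1 + 2))) := by
    intro x hx
    have hx' : x 0 ^ 2 + x 1 ^ 2 = 0 := hx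
    have : x 0 = 0 := by nlinarith [sq_nonneg (x 0), sq_nonneg (x 1)]
    simpa using this
  refine measure_mono_null h1 (Measure.addHaar_submodule _ _ ?_)
  intro htop
  have h2 : (bv 0 : E (1 + 2)) ∈ LinearMap.ker ((EuclideanSpace.proj (0 : Fin (1 + 2)) :
      E (1 + 2) →L[ℝ] ℝ) : E (1 + 2) →ₗ[ℝ] ℝ) := by rw [htop]; trivial
  simp [bv] at h2

theorem pf_WKH (_hROT : T_ROT) (hIBP : T_IBP) : T_WKH := by
  intro m u G hG hu hGu hfin v w
  set S : Set (E (1 + 2)) := {x | x ∈ ball (0 : E (1 + 2)) 1 ∧ 0 < rho x} with hS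
  set D : E (1 + 2) → E m := fun x => fderiv ℝ (fderiv ℝ u) x v w with hD
  have hrc : Continuous (rho : E (1 + 2) → ℝ) := by
    unfold rho
    fun_prop
  have hOo : IsOpen offAxis := isOpen_ball.inter (isOpen_lt continuous_const hrc)
  have hSo : IsOpen S := isOpen_ball.inter (isOpen_lt continuous_const hrc)
  have hSO : S ⊆ offAxis := fun x hx => ⟨ball_subset_ball (by norm_num) hx.1, hx.2⟩
  have hu1 : ContDiffOn ℝ ∞ (fderiv ℝ u) offAxis := hu.fderiv_of_isOpen hOo (by simp)
  have hu2 : ContDiffOn ℝ ∞ (fderiv ℝ (fderiv ℝ u)) offAxis := hu1.fderiv_of_isOpen hOo (by simp)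
  have hDc : ContinuousOn D offAxis :=
    (hu2.continuousOn.clm_apply continuousOn_const).clm_apply continuousOn_const
  -- integrability of the Hessian
  have hDi : IntegrableOn D S := by
    refine ⟨(hDc.mono hSO).aestronglyMeasurable hSo.measurableSet, ?_⟩
    rw [HasFiniteIntegral]
    have h1 : ∀ x, ‖D x‖ₑ ≤ ENNReal.ofReal (((1 + 2 : ℕ) * (1 + 2 : ℕ) * (‖v‖ * ‖w‖))) *
        ENNReal.ofReal (Real.sqrt (hsq u x)) := by
      intro x
      rw [← ofReal_norm, ← ENNReal.ofReal_mul (by positivity)]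
      exact ENNReal.ofReal_le_ofReal (hess_le (fderiv ℝ (fderiv ℝ u) x) v w)
    refine lt_of_le_of_lt (lintegral_mono h1) ?_
    rw [lintegral_const_mul' _ _ ENNReal.ofReal_ne_top]
    exact ENNReal.mul_lt_top ENNReal.ofReal_lt_top (lt_top_iff_ne_top.2 hfin)
  refine ⟨hDi, fun φ hφ hφc hφs => ?_⟩
  -- the sequence of scales
  set e : ℕ → ℝ := fun n => 1 / ((n : ℝ) + 1) with he
  have he0 : ∀ n, 0 < e n := fun n => by simp only [he]; positivity
  have het : Tendsto e atTop (𝓝 0) := tendsto_one_div_add_atTop_nhds_zero_nat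
  have hea : Antitone e := by
    intro a b hab
    apply one_div_le_one_div_of_le (by positivity)
    have : (a : ℝ) ≤ b := by exact_mod_cast hab
    linarith
  -- test function
  have hφ0 : ∀ x, x ∉ ball (0 : E (1 + 2)) 1 → φ x = 0 := fun x hx =>
    image_eq_zero_of_notMem_tsupport fun h => hx (hφs h)
  have hφ1 : ∀ x, x ∉ ball (0 : E (1 + 2)) 1 → fderiv ℝ φ x = 0 := fun x hx => by
    have : x ∉ tsupport (fderiv ℝ φ) := fun h => hx (hφs (tsupport_fderiv_subset ℝ h))
    exact image_eq_zero_of_notMem_tsupport this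
  obtain ⟨Mφ, hMφ⟩ := hφc.exists_bound_of_continuous hφ.continuous
  have hMφ0 : 0 ≤ Mφ := (norm_nonneg _).trans (hMφ 0)
  have hφ' : Continuous fun x => fderiv ℝ φ x v :=
    (hφ.continuous_fderiv (by simp)).clm_apply continuous_const
  obtain ⟨Mψ, hMψ⟩ := (hφc.fderiv_apply ℝ v).exists_bound_of_continuous hφ'
  -- the gradient
  set B2 : Set (E (1 + 2)) := ball 0 2 with hB2
  have hB2m : MeasurableSet B2 := measurableSet_ball
  have : IsFiniteMeasure (volume.restrict B2) := ⟨by
    rw [Measure.restrict_apply_univ]; exact measure_ball_lt_top⟩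
  set g : E (1 + 2) → E m := B2.indicator fun x => G x w with hg
  have hGw : MemLp (fun x => G x w) 2 (volume.restrict B2) := by
    have h1 := ContinuousLinearMap.comp_memLp'
      (ContinuousLinearMap.apply ℝ (E m) w) hG
    exact h1
  have hg2 : MemLp g 2 volume := (memLp_indicator_iff_restrict hB2m).2 hGw
  have hgi : Integrable g := by
    rw [hg, integrable_indicator_iff hB2m]
    exact hGw.integrable (by norm_num)
  have hgsq : Integrable fun x => ‖g x‖ ^ 2 :=
    (memLp_two_iff_integrable_sq_norm hg2.1).1 hg2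
  obtain ⟨Mc, hMc0, hMc⟩ := ct_fderiv_le
  have hCb : ∀ n x, ‖(φ x * fderiv ℝ (ct (e n)) x v) • g x‖ ≤
      (Mφ * (Mc * ‖v‖ * (1 / e n))) * ‖g x‖ := by
    intro n x
    rw [norm_smul, norm_mul]
    exact mul_le_mul_of_nonneg_right (mul_le_mul (hMφ x) (hMc _ (he0 n) x v) (norm_nonneg _) hMφ0)
      (norm_nonneg _)
  have hBb : ∀ n x, ‖(ct (e n) x * fderiv ℝ φ x v) • g x‖ ≤ Mψ * ‖g x‖ := by
    intro n x
    rw [norm_smul, norm_mul, Real.norm_of_nonneg (ct_nonneg _ _)]
    have h1 : ct (e n) x * ‖fderiv ℝ φ x v‖ ≤ 1 * Mψ :=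
      mul_le_mul (ct_le_one _ _) (hMψ x) (norm_nonneg _) zero_le_one
    nlinarith [norm_nonneg (g x)]
  have hiC : ∀ n, Integrable fun x => (φ x * fderiv ℝ (ct (e n)) x v) • g x := by
    intro n
    refine (hgi.norm.const_mul (Mφ * (Mc * ‖v‖ * (1 / e n)))).mono' ?_
      (Eventually.of_forall fun x => hCb n x)
    have h1 : Continuous fun x => fderiv ℝ (ct (e n)) x v :=
      ((ct_contDiff _).continuous_fderiv (by simp)).clm_apply continuous_const
    exact (hφ.continuous.mul h1).aestronglyMeasurable.smul hgi.1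
  have hiB : ∀ n, Integrable fun x => (ct (e n) x * fderiv ℝ φ x v) • g x := by
    intro n
    refine (hgi.norm.const_mul Mψ).mono' ?_ (Eventually.of_forall fun x => hBb n x)
    exact ((ct_contDiff _).continuous.mul hφ').aestronglyMeasurable.smul hgi.1
  -- the identity for the cut off functions
  have hident : ∀ n, ∫ x in S, (φ x * ct (e n) x) • D x =
      - ((∫ x, (φ x * fderiv ℝ (ct (e n)) x v) • g x) +
        ∫ x, (ct (e n) x * fderiv ℝ φ x v) • g x) := by
    intro n
    set k := ct (e n) with hk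
    have hkd : ContDiff ℝ ∞ k := ct_contDiff _
    have ha : ContDiff ℝ 1 (fun x => φ x * k x) := (hφ.mul hkd).of_le (by simp)
    have hac : HasCompactSupport (fun x => φ x * k x) := hφc.mul_right
    have has : tsupport (fun x => φ x * k x) ⊆ offAxis := by
      intro x hx
      have h1 : x ∈ tsupport φ := tsupport_mul_subset_left (f := φ) (g := k) hx
      have h2 : x ∈ {x | e n ^ 2 ≤ q2 x} := by
        refine closure_minimal (s := Function.support fun x => φ x * k x) ?_
          (isClosed_le continuous_const q2_contDiff.continuous) hx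
        intro y hy
        by_contra hcon
        rw [mem_ofPred_eq, not_le] at hcon
        apply hy
        simp only [hk, ct_zero (he0 n) hcon.le, mul_zero]
      refine ⟨ball_subset_ball (by norm_num) (hφs h1), (rho_pos_iff x).2 ?_⟩
      have h3 : e n ^ 2 ≤ q2 x := h2
      have h4 := he0 n
      exact lt_of_lt_of_le (by positivity) h3
    have hb : ContDiffOn ℝ 1 (fun y => fderiv ℝ u y w) offAxis :=
      (hu1.clm_apply contDiffOn_const).of_le (by simp)
    have hib := hIBP.1 (1 + 2) m offAxis _ (fun y => fderiv ℝ u y w) v hOo ha hac has hb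
    have hL : ∫ x, (φ x * k x) • fderiv ℝ (fun y => fderiv ℝ u y w) x v =
        ∫ x in S, (φ x * k x) • D x := by
      rw [← integral_indicator hSo.measurableSet]
      congr 1
      funext x
      by_cases hx : x ∈ S
      · rw [indicator_of_mem hx]
        congr 1
        have h1 : DifferentiableAt ℝ (fderiv ℝ u) x :=
          (hu1.differentiableOn (by simp)).differentiableAt (hOo.mem_nhds (hSO hx))
        rw [(h1.hasFDerivAt.clm_apply (hasFDerivAt_const w x)).fderiv]
        simp [hD]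
      · rw [indicator_of_notMem hx]
        have : φ x * k x = 0 := by
          by_cases hxb : x ∈ ball (0 : E (1 + 2)) 1
          · have hr : ¬ 0 < q2 x := fun h => hx ⟨hxb, (rho_pos_iff x).2 h⟩
            rw [hk, ct_zero (he0 n) ((not_lt.1 hr).trans (by positivity)), mul_zero]
          · rw [hφ0 x hxb, zero_mul]
        rw [this, zero_smul]
    rw [← hL, hib, neg_inj, ← integral_add (hiC n) (hiB n)]
    apply integral_congr_ae
    filter_upwards [(ae_restrict_iff' hOo.measurableSet).1 hGu] with x hx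
    have hm : fderiv ℝ (fun x => φ x * k x) x v = φ x * fderiv ℝ k x v + k x * fderiv ℝ φ x v := by
      rw [fderiv_fun_mul (hφ.differentiable (by simp)).differentiableAt
        (hkd.differentiable (by simp)).differentiableAt]
      simp
    rw [hm]
    by_cases hxo : x ∈ offAxis
    · have hgx : g x = fderiv ℝ u x w := by
        rw [hg, indicator_of_mem hxo.1, hx hxo]
      rw [hgx, add_smul]
    · have h0 : φ x * fderiv ℝ k x v = 0 ∧ k x * fderiv ℝ φ x v = 0 := by
        by_cases hxb : x ∈ ball (0 : E (1 + 2)) 2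
        · have hr : q2 x ≤ 0 := not_lt.1 fun h => hxo ⟨hxb, (rho_pos_iff x).2 h⟩
          have h4 := he0 n
          have h5 : q2 x < e n ^ 2 := lt_of_le_of_lt hr (by positivity)
          rw [hk, ct_zero h4 h5.le, ct_fderiv_near h4 h5]
          simp
        · have hxb1 : x ∉ ball (0 : E (1 + 2)) 1 := fun h => hxb (ball_subset_ball (by norm_num) h)
          rw [hφ0 x hxb1, hφ1 x hxb1]
          simp
      rw [h0.1, h0.2]
      simp
  -- the limits
  have hev : ∀ x : E (1 + 2), 0 < q2 x → ∀ᶠ n in atTop, ct (e n) x = 1 := by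
    intro x hx
    have h1 : Tendsto (fun n => 4 * e n ^ 2) atTop (𝓝 0) := by
      simpa using (het.pow 2).const_mul 4
    filter_upwards [h1.eventually_lt_const hx] with n hn
    exact ct_one (he0 n) hn.le
  have hAlim : Tendsto (fun n => ∫ x in S, (φ x * ct (e n) x) • D x) atTop
      (𝓝 (∫ x in S, φ x • D x)) := by
    refine tendsto_integral_of_dominated_convergence (fun x => Mφ * ‖D x‖) (fun n => ?_)
      (hDi.norm.const_mul _) (fun n => Eventually.of_forall fun x => ?_) ?_
    · exact (hφ.continuous.mul (ct_contDiff _).continuous).aestronglyMeasurable.smul hDi.1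
    · rw [norm_smul, norm_mul, Real.norm_of_nonneg (ct_nonneg _ _)]
      have h1 : ‖φ x‖ * ct (e n) x ≤ Mφ * 1 :=
        mul_le_mul (hMφ x) (ct_le_one _ _) (ct_nonneg _ _) hMφ0
      nlinarith [norm_nonneg (D x)]
    · refine ae_restrict_of_forall_mem hSo.measurableSet fun x hx => ?_
      refine tendsto_const_nhds.congr' ?_
      filter_upwards [hev x ((rho_pos_iff x).1 hx.2)] with n hn
      rw [hn, mul_one]
  have hBlim : Tendsto (fun n => ∫ x, (ct (e n) x * fderiv ℝ φ x v) • g x) atTop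
      (𝓝 (∫ x, (fderiv ℝ φ x v) • g x)) := by
    refine tendsto_integral_of_dominated_convergence (fun x => Mψ * ‖g x‖) (fun n => (hiB n).1)
      (hgi.norm.const_mul _) (fun n => Eventually.of_forall fun x => hBb n x) ?_
    have hax : ∀ᵐ x : E (1 + 2), q2 x ≠ 0 := measure_eq_zero_iff_ae_notMem.1 axis_null
    filter_upwards [hax] with x hx
    refine tendsto_const_nhds.congr' ?_
    filter_upwards [hev x (lt_of_le_of_ne (q2_nonneg x) (Ne.symm hx))] with n hn
    rw [hn, one_mul]
  have hClim : Tendsto (fun n => ∫ x, (φ x * fderiv ℝ (ct (e n)) x v) • g x) atTop (𝓝 0) := by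
    set I : ℕ → ℝ := fun n => ∫ x in tube (e n), ‖g x‖ ^ 2 with hI
    have hI0 : ∀ n, 0 ≤ I n := fun n => integral_nonneg fun x => by positivity
    have hanti : Antitone fun n => tube (e n) := by
      intro a b hab x hx
      refine ⟨hx.1, hx.2.trans ?_⟩
      have h1 := hea hab
      have h0 := (he0 b).le
      nlinarith
    have hIlim : Tendsto I atTop (𝓝 0) := by
      have h1 := tendsto_setIntegral_of_antitone (μ := volume) (f := fun x => ‖g x‖ ^ 2)
        (fun n => tube_meas (e n)) hanti ⟨0, hgsq.integrableOn⟩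
      have h2 : volume (⋂ n, tube (e n)) = 0 := by
        refine measure_mono_null ?_ axis_null
        intro x hx
        rw [mem_iInter] at hx
        have h3 : q2 x ≤ 0 := by
          have h4 : Tendsto (fun n => 4 * e n ^ 2) atTop (𝓝 0) := by
            simpa using (het.pow 2).const_mul 4
          exact ge_of_tendsto h4 (Eventually.of_forall fun n => (hx n).2)
        exact le_antisymm h3 (q2_nonneg x)
      rw [setIntegral_measure_zero _ h2] at h1
      exact h1
    set K : ℝ := Mφ * (Mc * ‖v‖) with hK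
    have hK0 : 0 ≤ K := by positivity
    have hbound : ∀ n, ‖∫ x, (φ x * fderiv ℝ (ct (e n)) x v) • g x‖ ≤
        K * (Real.sqrt (I n) / 2 + 16 * (Real.sqrt (I n) + e n)) := by
      intro n
      set l : ℝ := Real.sqrt (I n) + e n with hl
      have hsq := Real.sqrt_nonneg (I n)
      have hen := he0 n
      have hl0 : 0 < l := by positivity
      have hout : ∀ x, x ∉ tube (e n) → ‖(φ x * fderiv ℝ (ct (e n)) x v) • g x‖ = 0 := by
        intro x hx
        by_cases hxb : x ∈ ball (0 : E (1 + 2)) 1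
        · have h1 : 4 * e n ^ 2 < q2 x := not_le.1 fun h => hx ⟨hxb, h⟩
          rw [ct_fderiv_far hen h1]
          simp
        · rw [hφ0 x hxb]
          simp
      refine (norm_integral_le_integral_norm _).trans ?_
      rw [← setIntegral_eq_integral_of_forall_compl_eq_zero hout]
      have hvt : volume (tube (e n)) ≠ ⊤ :=
        ne_top_of_le_ne_top ENNReal.ofReal_ne_top (tube_vol hen)
      have hvr : volume.real (tube (e n)) ≤ 32 * e n ^ 2 := by
        rw [measureReal_def]
        exact ENNReal.toReal_le_of_le_ofReal (by positivity) (tube_vol hen)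
      have hi1 : IntegrableOn (fun x => K / (2 * l) * ‖g x‖ ^ 2) (tube (e n)) :=
        (hgsq.const_mul _).integrableOn
      have hi2 : IntegrableOn (fun _ : E (1 + 2) => K * l / (2 * e n ^ 2)) (tube (e n)) :=
        integrableOn_const hvt
      have h2 : ∫ x in tube (e n), ‖(φ x * fderiv ℝ (ct (e n)) x v) • g x‖ ≤
          ∫ x in tube (e n), (K / (2 * l) * ‖g x‖ ^ 2 + K * l / (2 * e n ^ 2)) := by
        refine integral_mono (hiC n).norm.integrableOn (hi1.add hi2) fun x => ?_
        refine (hCb n x).trans ?_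
        have h3 : ‖g x‖ ^ 2 / (2 * l) + l / (2 * e n ^ 2) - ‖g x‖ / e n =
            (‖g x‖ - l / e n) ^ 2 / (2 * l) := by
          field_simp
          ring
        have h4 : 0 ≤ (‖g x‖ - l / e n) ^ 2 / (2 * l) := by positivity
        have h5 : ‖g x‖ / e n ≤ ‖g x‖ ^ 2 / (2 * l) + l / (2 * e n ^ 2) := by linarith
        calc Mφ * (Mc * ‖v‖ * (1 / e n)) * ‖g x‖ = K * (‖g x‖ / e n) := by rw [hK]; ring
          _ ≤ K * (‖g x‖ ^ 2 / (2 * l) + l / (2 * e n ^ 2)) := mul_le_mul_of_nonneg_left h5 hK0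
          _ = _ := by ring
      refine h2.trans ?_
      rw [integral_add hi1 hi2, integral_const_mul, setIntegral_const, smul_eq_mul]
      have h6 : K / (2 * l) * I n ≤ K * (Real.sqrt (I n) / 2) := by
        have h7 : I n ≤ Real.sqrt (I n) * l := by
          have h8 := Real.mul_self_sqrt (hI0 n)
          rw [hl]
          nlinarith [mul_nonneg hsq hen.le]
        have h9 : I n / (2 * l) ≤ Real.sqrt (I n) / 2 := by
          rw [div_le_div_iff₀ (by positivity) (by norm_num)]
          nlinarith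
        calc K / (2 * l) * I n = K * (I n / (2 * l)) := by ring
          _ ≤ _ := mul_le_mul_of_nonneg_left h9 hK0
      have h10 : volume.real (tube (e n)) * (K * l / (2 * e n ^ 2)) ≤ K * (16 * l) := by
        calc volume.real (tube (e n)) * (K * l / (2 * e n ^ 2)) ≤
            32 * e n ^ 2 * (K * l / (2 * e n ^ 2)) :=
              mul_le_mul_of_nonneg_right hvr (by positivity)
          _ = K * (16 * l) := by
              field_simp
              ring
      calc _ ≤ K * (Real.sqrt (I n) / 2) + K * (16 * l) := add_le_add h6 h10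
        _ = _ := by ring
    refine squeeze_zero_norm hbound ?_
    have h1 : Tendsto (fun n => Real.sqrt (I n)) atTop (𝓝 0) := by
      have := (Real.continuous_sqrt.tendsto 0).comp hIlim
      rwa [Real.sqrt_zero] at this
    have h2 := ((h1.div_const 2).add ((h1.add het).const_mul 16)).const_mul K
    simpa using h2
  have hfin2 := (hClim.add hBlim).neg
  rw [zero_add] at hfin2
  have huniq := tendsto_nhds_unique hAlim (hfin2.congr fun n => (hident n).symm)
  have hgG : ∫ x, (fderiv ℝ φ x v) • G x w = ∫ x, (fderiv ℝ φ x v) • g x := by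
    congr 1
    funext x
    by_cases hxb : x ∈ B2
    · rw [hg, indicator_of_mem hxb]
    · have hxb1 : x ∉ ball (0 : E (1 + 2)) 1 := fun h => hxb (ball_subset_ball (by norm_num) h)
      rw [hφ1 x hxb1]
      simp
  rw [hgG, huniq, neg_neg]

end

end Pool.Agent.H18.AX
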